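import Pool.Agent.Y192.FA.GDefs

/-!
# From bounded degrees to the multiplicative group
-/

set_option autoImplicit false

namespace Pool.Agent.Y288.FG

open MvPolynomial FF Pool.Agent.W603.LV Pool.Agent.W603.PV Pool.Agent.Y192.FA
open Pool.Agent.Y192.KC (Cov ZCov ZField Poly WH PseudoGm GmCurve Pt Same)

/-- a polynomial, evaluated at `X ^ k` -/
noncomputable def ev (k : ℕ) : Polynomial ℂ →ₐ[ℂ] RatFunc ℂ :=
  (IsScalarTower.toAlgHom ℂ (Polynomial ℂ) (RatFunc ℂ)).comp (Polynomial.expand ℂ k)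

theorem ev_ne {k : ℕ} (hk : 0 < k) {p : Polynomial ℂ} (hp : p ≠ 0) : ev k p ≠ 0 := by
  intro h
  apply hp
  have h1 : algebraMap (Polynomial ℂ) (RatFunc ℂ) (Polynomial.expand ℂ k p) = 0 := h
  have h2 : Polynomial.expand ℂ k p = 0 :=
    (injective_iff_map_eq_zero _).1 (RatFunc.algebraMap_injective ℂ) _ h1
  exact (Polynomial.expand_eq_zero hk).1 h2

theorem poly_zero {f : Polynomial ℂ} (h : ∀ z : ℂ, z ≠ 0 → f.eval z = 0) : f = 0 := by
  refine Polynomial.eq_zero_of_infinite_isRoot f ?_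
  refine Set.Infinite.mono (s := {(0 : ℂ)}ᶜ) (fun z hz => h z hz) ?_
  exact (Set.finite_singleton (0 : ℂ)).infinite_compl

/-- the value of a polynomial at a place over `z` -/
theorem ge_sub {P : Place ℂ (RatFunc ℂ)} {z : ℂ}
    (hz : Ge P 1 ((RatFunc.X : RatFunc ℂ) - algebraMap ℂ (RatFunc ℂ) z)) (f : Polynomial ℂ) :
    Ge P 1 (algebraMap (Polynomial ℂ) (RatFunc ℂ) f - algebraMap ℂ (RatFunc ℂ) (f.eval z)) := by
  obtain ⟨g, hg⟩ := Polynomial.X_sub_C_dvd_sub_C_eval (a := z) (p := f)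
  have hX : Ge P 0 (RatFunc.X : RatFunc ℂ) := by
    have h1 : (RatFunc.X : RatFunc ℂ) = ((RatFunc.X : RatFunc ℂ) - algebraMap ℂ (RatFunc ℂ) z) +
        algebraMap ℂ (RatFunc ℂ) z := by ring
    rw [h1]
    exact (hz.mono (by norm_num)).add (Ge.const z)
  have hg0 : Ge P 0 (algebraMap (Polynomial ℂ) (RatFunc ℂ) g) := by
    have h1 : algebraMap (Polynomial ℂ) (RatFunc ℂ) g = Polynomial.aeval (RatFunc.X : RatFunc ℂ) g := by
      rw [← RatFunc.algebraMap_X, Polynomial.aeval_algebraMap_apply, Polynomial.aeval_X_left_apply]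
    rw [h1]
    exact ge_aeval P hX g
  have h2 : algebraMap (Polynomial ℂ) (RatFunc ℂ) f - algebraMap ℂ (RatFunc ℂ) (f.eval z) =
      ((RatFunc.X : RatFunc ℂ) - algebraMap ℂ (RatFunc ℂ) z) *
        algebraMap (Polynomial ℂ) (RatFunc ℂ) g := by
    have h3 := congrArg (algebraMap (Polynomial ℂ) (RatFunc ℂ)) hg
    rw [map_sub, map_mul, map_sub, RatFunc.algebraMap_X, RatFunc.algebraMap_C,
      RatFunc.algebraMap_C] at h3
    rw [RatFunc.algebraMap_eq_C]
    exact h3
  rw [h2]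
  have := hz.mul hg0
  simpa using this

theorem ge_ev {P : Place ℂ (RatFunc ℂ)} {z : ℂ}
    (hz : Ge P 1 ((RatFunc.X : RatFunc ℂ) - algebraMap ℂ (RatFunc ℂ) z)) (k : ℕ)
    (f : Polynomial ℂ) : Ge P 1 (ev k f - algebraMap ℂ (RatFunc ℂ) (f.eval (z ^ k))) := by
  have := ge_sub hz (Polynomial.expand ℂ k f)
  rwa [Polynomial.expand_eval] at this

theorem ge_ev0 {P : Place ℂ (RatFunc ℂ)} {z : ℂ}
    (hz : Ge P 1 ((RatFunc.X : RatFunc ℂ) - algebraMap ℂ (RatFunc ℂ) z)) (k : ℕ)
    (f : Polynomial ℂ) : Ge P 0 (ev k f) := by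
  have h1 : ev k f = (ev k f - algebraMap ℂ (RatFunc ℂ) (f.eval (z ^ k))) +
      algebraMap ℂ (RatFunc ℂ) (f.eval (z ^ k)) := by ring
  rw [h1]
  exact ((ge_ev hz k f).mono (by norm_num)).add (Ge.const _)

theorem ord_ev {P : Place ℂ (RatFunc ℂ)} {z : ℂ}
    (hz : Ge P 1 ((RatFunc.X : RatFunc ℂ) - algebraMap ℂ (RatFunc ℂ) z)) (k : ℕ)
    {f : Polynomial ℂ} (hf : f.eval (z ^ k) ≠ 0) : ev k f ≠ 0 ∧ P.ord (ev k f) = 0 := by
  have hc : P.ord (algebraMap ℂ (RatFunc ℂ) (f.eval (z ^ k))) = 0 := P.ord_const hf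
  have hc0 : algebraMap ℂ (RatFunc ℂ) (f.eval (z ^ k)) ≠ 0 := by
    rw [map_ne_zero]; exact hf
  have h1 := ge_ev hz k f
  have hne : ev k f ≠ 0 := by
    intro h0
    rw [h0, zero_sub] at h1
    have h2 := h1.neg
    rw [neg_neg] at h2
    rcases h2 with h2 | h2
    · exact hc0 h2
    · omega
  refine ⟨hne, ?_⟩
  have h0 := (ge_ev0 hz k f).resolve_left hne
  by_contra hcon
  have h2 : 1 ≤ P.ord (ev k f) := by omega
  have h3 : Ge P 1 (algebraMap ℂ (RatFunc ℂ) (f.eval (z ^ k))) := by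
    have h4 : Ge P 1 (ev k f) := Or.inr h2
    have h5 := h4.sub h1
    rwa [sub_sub_cancel] at h5
  rcases h3 with h3 | h3
  · exact hc0 h3
  · omega

/-- the place over `z` -/
theorem exists_pl (z : ℂ) : ∃ P : Place ℂ (RatFunc ℂ),
    Ge P 1 ((RatFunc.X : RatFunc ℂ) - algebraMap ℂ (RatFunc ℂ) z) := by
  by_contra hcon
  push Not at hcon
  set f : RatFunc ℂ := (RatFunc.X : RatFunc ℂ) - algebraMap ℂ (RatFunc ℂ) z with hf
  have hf0 : f ≠ 0 := by
    intro h0
    rw [hf, sub_eq_zero] at h0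
    exact RatFunc.transcendental_X (K := ℂ) (by rw [h0]; exact isAlgebraic_algebraMap z)
  have h1 : hgt ℂ f⁻¹ ≤ 0 := by
    unfold hgt
    rw [finsum_eq_zero_of_forall_eq_zero]
    intro P
    rw [P.ord_inv, neg_neg]
    apply max_eq_right
    by_contra h
    exact hcon P (Or.inr (by omega))
  obtain ⟨c, hc⟩ := const_of_hgt h1
  have h2 : f = algebraMap ℂ (RatFunc ℂ) c⁻¹ := by
    rw [map_inv₀, ← hc, inv_inv]
  apply RatFunc.transcendental_X (K := ℂ)
  have h3 : (RatFunc.X : RatFunc ℂ) = algebraMap ℂ (RatFunc ℂ) (c⁻¹ + z) := by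
    rw [map_add, ← h2, hf]; ring
  rw [h3]
  exact isAlgebraic_algebraMap _

theorem pl_inj {P : Place ℂ (RatFunc ℂ)} {z z' : ℂ}
    (hz : Ge P 1 ((RatFunc.X : RatFunc ℂ) - algebraMap ℂ (RatFunc ℂ) z))
    (hz' : Ge P 1 ((RatFunc.X : RatFunc ℂ) - algebraMap ℂ (RatFunc ℂ) z')) : z = z' := by
  by_contra hne
  have h1 := hz.sub hz'
  have h2 : (RatFunc.X : RatFunc ℂ) - algebraMap ℂ (RatFunc ℂ) z -
      ((RatFunc.X : RatFunc ℂ) - algebraMap ℂ (RatFunc ℂ) z') =
      algebraMap ℂ (RatFunc ℂ) (z' - z) := by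
    rw [map_sub]; ring
  rw [h2] at h1
  have h3 : z' - z ≠ 0 := sub_ne_zero.2 (Ne.symm hne)
  rcases h1 with h1 | h1
  · rw [map_eq_zero] at h1
    exact h3 h1
  · rw [P.ord_const h3] at h1
    omega

/-- a lower bound of the height of a point of projective space -/
theorem pht_ge {n : ℕ} (u : Fin (n + 1) → RatFunc ℂ) (hu : ∃ i, u i ≠ 0) (h : RatFunc ℂ)
    (hh : h ≠ 0) (hge : ∀ P : Place ℂ (RatFunc ℂ), Ge P (pord P u) h)
    (T : Finset (Place ℂ (RatFunc ℂ))) (hT : ∀ P ∈ T, pord P u + 1 ≤ P.ord h) :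
    (T.card : ℤ) ≤ pht ℂ u := by
  classical
  obtain ⟨T1, hT1⟩ := exists_supp (k := ℂ) Finset.univ u
  obtain ⟨T2, hT2⟩ := exists_supp (k := ℂ) (Finset.univ : Finset (Fin 1)) (fun _ => h)
  set T' := T1 ∪ T2 ∪ T with hT'
  have h1 : pht ℂ u = ∑ P ∈ T', (- pord P u) := by
    unfold pht
    rw [finsum_eq_sum_of_support_subset (s := T'), Finset.sum_neg_distrib]
    intro P hP
    by_contra hcon
    apply hP
    obtain ⟨j, hj, h'⟩ := exists_pord P hu
    simp only
    rw [← h']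
    by_contra h2
    exact hcon (Finset.mem_coe.2 (Finset.mem_union_left _ (Finset.mem_union_left _
      (hT1 j (Finset.mem_univ j) P h2))))
  have h2 : ∑ P ∈ T', P.ord h = 0 := sum_ord_finset _ T' fun P hP =>
    Finset.mem_union_left _ (Finset.mem_union_right _ (hT2 0 (Finset.mem_univ _) P hP))
  have h3 : ∑ P ∈ T', (- pord P u) = ∑ P ∈ T', (P.ord h - pord P u) := by
    rw [Finset.sum_sub_distrib, h2, Finset.sum_neg_distrib]; ring
  rw [h1, h3]
  calc (T.card : ℤ) = ∑ P ∈ T, 1 := by simp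
    _ ≤ ∑ P ∈ T, (P.ord h - pord P u) := Finset.sum_le_sum fun P hP => by
        have := hT P hP
        omega
    _ ≤ ∑ P ∈ T', (P.ord h - pord P u) :=
        Finset.sum_le_sum_of_subset_of_nonneg Finset.subset_union_right fun P _ _ => by
          have := (hge P).resolve_left hh
          omega

theorem exists_roots (k : ℕ) (hk : 0 < k) (z : ℂ) (hz : z ≠ 0) :
    ∃ R : Finset ℂ, R.card = k ∧ ∀ ζ ∈ R, ζ ^ k = z := by
  classical
  obtain ⟨α, hα⟩ := IsAlgClosed.exists_pow_nat_eq z hk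
  have hα0 : α ≠ 0 := by
    rintro rfl
    rw [zero_pow hk.ne'] at hα
    exact hz hα.symm
  refine ⟨(Polynomial.nthRootsFinset k (1 : ℂ)).image fun ζ => α * ζ, ?_, ?_⟩
  · rw [Finset.card_image_of_injective _ (mul_right_injective₀ hα0)]
    exact (Complex.isPrimitiveRoot_exp k hk.ne').card_nthRootsFinset
  · intro ζ hζ
    obtain ⟨ξ, hξ, rfl⟩ := Finset.mem_image.1 hζ
    rw [mul_pow, hα, (Polynomial.mem_nthRootsFinset hk (1 : ℂ)).1 hξ, mul_one]

/-! ### maps from curves -/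

section curves

variable {n r : ℕ}

theorem aeval_ev (k : ℕ) (p : Fin (n + 1) → Polynomial ℂ) (s : Fin r → Polynomial ℂ)
    (B : Poly n r) : aeval (Sum.elim (fun i => ev k (p i)) (fun j => ev k (s j))) B =
      ev k (aeval (Sum.elim p s) B) := by
  rw [comp_aeval_apply]
  congr 2
  funext i
  rcases i with i | j <;> rfl

theorem aeval_ev' (k m : ℕ) (p : Fin (n + 1) → Polynomial ℂ)
    (G : MvPolynomial (Fin (n + 1)) ℂ) : aeval (fun i => ev k (p i) ^ m) G =
      ev k (aeval (fun i => p i ^ m) G) := by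
  rw [comp_aeval_apply]
  congr 2
  funext i
  rw [map_pow]

theorem eval_poly (p : Fin (n + 1) → Polynomial ℂ) (s : Fin r → Polynomial ℂ) (B : Poly n r)
    (z : ℂ) : (aeval (Sum.elim p s) B).eval z =
      eval (Sum.elim (fun i => (p i).eval z) (fun j => (s j).eval z)) B := by
  have h1 := comp_aeval_apply (Sum.elim p s) (Polynomial.aeval z : Polynomial ℂ →ₐ[ℂ] ℂ) B
  rw [Polynomial.coe_aeval_eq_eval] at h1
  have h2 : (fun i => Polynomial.eval z (Sum.elim p s i)) =
      Sum.elim (fun i => (p i).eval z) (fun j => (s j).eval z) := by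
    funext i
    rcases i with i | j <;> rfl
  rw [h1, h2, MvPolynomial.aeval_eq_eval]

theorem eval_poly' (m : ℕ) (p : Fin (n + 1) → Polynomial ℂ)
    (G : MvPolynomial (Fin (n + 1)) ℂ) (z : ℂ) : (aeval (fun i => p i ^ m) G).eval z =
      eval (fun i => (p i).eval z ^ m) G := by
  have h1 := comp_aeval_apply (fun i => p i ^ m) (Polynomial.aeval z : Polynomial ℂ →ₐ[ℂ] ℂ) G
  rw [Polynomial.coe_aeval_eq_eval] at h1
  have h2 : (fun i => Polynomial.eval z (p i ^ m)) = fun i => (p i).eval z ^ m := by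
    funext i
    rw [Polynomial.eval_pow]
  rw [h1, h2, MvPolynomial.aeval_eq_eval]

variable {X : Cov n r} {m : ℕ} {L : Type} [Field L] [Algebra ℂ L] {t : Fin (n + 1) → L}
  {w : Fin r → L} {p : Fin (n + 1) → Polynomial ℂ} {s : Fin r → Polynomial ℂ}

theorem exists_eval_ne (h : GmCurve X m t w p s) {z : ℂ} (hz : z ≠ 0) :
    ∃ i, (p i).eval z ≠ 0 := by
  by_contra hcon
  push Not at hcon
  exact (h.mem z hz).1 (funext hcon)

theorem pord_eq (h : GmCurve X m t w p s) {k : ℕ} {P : Place ℂ (RatFunc ℂ)} {z : ℂ}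
    (hz : z ≠ 0) (hP : Ge P 1 ((RatFunc.X : RatFunc ℂ) - algebraMap ℂ (RatFunc ℂ) z)) :
    pord P (fun i => ev k (p i)) = 0 := by
  obtain ⟨i, hi⟩ := exists_eval_ne h (pow_ne_zero k hz)
  obtain ⟨h1, h2⟩ := ord_ev hP k hi
  have h3 : pord P (fun i => ev k (p i)) ≤ P.ord (ev k (p i)) :=
    pord_le P (f := fun i => ev k (p i)) (j := i) h1
  obtain ⟨j, hj, h4⟩ := exists_pord P (f := fun i => ev k (p i)) ⟨i, h1⟩
  have h5 := (ge_ev0 hP k (p j)).resolve_left hj
  change P.ord (ev k (p j)) = _ at h4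
  omega

theorem mapTo (h : GmCurve X m t w p s) {k : ℕ} (hk : 0 < k) :
    MapTo X m t w zeroInf (fun i => ev k (p i)) (fun j => ev k (s j)) where
  ne := by
    obtain ⟨i, hi⟩ := exists_eval_ne h one_ne_zero
    refine ⟨i, ev_ne hk ?_⟩
    rintro h0
    rw [h0] at hi
    simp at hi
  mem := by
    intro B D hB hB0
    rw [aeval_ev]
    have h1 : aeval (Sum.elim p s) B = 0 := by
      refine poly_zero fun z hz => ?_
      rw [eval_poly]
      exact (h.mem z hz).2.1 B D hB hB0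
    rw [h1, map_zero]
  G_ne := by
    rw [aeval_ev']
    refine ev_ne hk ?_
    intro h0
    have h1 := (h.mem 1 one_ne_zero).2.2
    rw [← eval_poly', h0] at h1
    simp at h1
  off := by
    intro P hP
    have hX : P.ord (RatFunc.X : RatFunc ℂ) = 0 := by
      by_contra hcon
      apply hP
      unfold zeroInf
      rw [Set.Finite.mem_toFinset]
      exact hcon
    obtain ⟨z, hz⟩ := exists_const P (f := (RatFunc.X : RatFunc ℂ)) (Or.inr hX.ge)
    have hz0 : z ≠ 0 := by
      rintro rfl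
      rw [map_zero, sub_zero] at hz
      rcases hz with hz | hz
      · exact RatFunc.X_ne_zero hz
      · omega
    rw [pord_eq h hz0 hz, mul_zero, aeval_ev']
    refine (ord_ev hz k ?_).2
    rw [eval_poly']
    exact (h.mem (z ^ k) (pow_ne_zero k hz0)).2.2

theorem pht_big (h : GmCurve X m t w p s) {k : ℕ} (hk : 0 < k) {z1 z2 : ℂ} (hz1 : z1 ≠ 0)
    {i l : Fin (n + 1)}
    (hne : (p i).eval z1 * (p l).eval z2 ≠ (p i).eval z2 * (p l).eval z1) :
    (k : ℤ) ≤ pht ℂ (fun i => ev k (p i)) := by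
  classical
  choose pl hpl using exists_pl
  obtain ⟨R, hR, hR'⟩ := exists_roots k hk z1 hz1
  set f : Polynomial ℂ := Polynomial.C ((p l).eval z1) * p i - Polynomial.C ((p i).eval z1) * p l
    with hf
  have hf1 : f.eval z1 = 0 := by
    rw [hf]
    simp only [Polynomial.eval_sub, Polynomial.eval_mul, Polynomial.eval_C]
    ring
  have hf2 : f.eval z2 ≠ 0 := by
    rw [hf]
    simp only [Polynomial.eval_sub, Polynomial.eval_mul, Polynomial.eval_C]
    intro h0
    apply hne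
    linear_combination -h0
  have hf0 : f ≠ 0 := by
    intro h0
    rw [h0] at hf2
    simp at hf2
  have hcard : (R.image pl).card = k := by
    rw [Finset.card_image_of_injective, hR]
    intro ζ ζ' hζ
    refine pl_inj (P := pl ζ) (hpl ζ) ?_
    rw [hζ]
    exact hpl ζ'
  have hu : ∃ i, (fun i => ev k (p i)) i ≠ 0 := (mapTo h hk).ne
  have h1 := pht_ge (fun i => ev k (p i)) hu (ev k f) (ev_ne hk hf0) (by
    intro P
    have e : ev k f = algebraMap ℂ (RatFunc ℂ) ((p l).eval z1) * ev k (p i) -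
        algebraMap ℂ (RatFunc ℂ) ((p i).eval z1) * ev k (p l) := by
      rw [hf, map_sub, map_mul, map_mul]
      have e1 : ∀ c : ℂ, ev k (Polynomial.C c) = algebraMap ℂ (RatFunc ℂ) c := fun c =>
        (ev k).commutes c
      rw [e1, e1]
    rw [e]
    have h2 := (Ge.const (P := P) ((p l).eval z1)).mul (ge_pord P (fun i => ev k (p i)) i)
    have h3 := (Ge.const (P := P) ((p i).eval z1)).mul (ge_pord P (fun i => ev k (p i)) l)
    rw [zero_add] at h2 h3
    exact h2.sub h3) (R.image pl) (by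
    intro P hP
    obtain ⟨ζ, hζ, rfl⟩ := Finset.mem_image.1 hP
    have hζ0 : ζ ≠ 0 := by
      rintro rfl
      have := hR' 0 hζ
      rw [zero_pow hk.ne'] at this
      exact hz1 this.symm
    rw [pord_eq h hζ0 (hpl ζ)]
    have h2 := ge_ev (hpl ζ) k f
    rw [hR' ζ hζ, hf1, map_zero, sub_zero] at h2
    have := h2.resolve_left (ev_ne hk hf0)
    omega)
  rw [hcard] at h1
  exact h1

end curves

/-! ### the relations -/

/-- the value of a form at powers of the coordinates is weighted homogeneous -/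
theorem wh_F {n r : ℕ} {F : MvPolynomial (Fin (n + 1)) ℂ} {d : ℕ} (hF : F.IsHomogeneous d)
    (wt : Fin (n + 1) ⊕ Fin r → ℕ) (hw : ∀ i, wt (Sum.inl i) = 1) (m : ℕ) :
    IsWeightedHomogeneous wt
      (aeval (fun i => (MvPolynomial.X (Sum.inl i) : Poly n r) ^ m) F) (m * d) := by
  rw [aeval_def, eval₂_eq']
  refine IsWeightedHomogeneous.sum _ _ _ fun c hc => ?_
  have h1 : IsWeightedHomogeneous wt (algebraMap ℂ (Poly n r) (coeff c F)) 0 :=
    isWeightedHomogeneous_C wt _
  have h2 : IsWeightedHomogeneous wt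
      (∏ i, ((MvPolynomial.X (Sum.inl i) : Poly n r) ^ m) ^ c i) (∑ i, c i • (m • wt (Sum.inl i))) :=
    IsWeightedHomogeneous.prod _ _ _ fun i _ => ((isWeightedHomogeneous_X ℂ wt _).pow m).pow (c i)
  have h3 := h1.mul h2
  have h4 : 0 + ∑ i, c i • (m • wt (Sum.inl i)) = m * d := by
    have h5 : ∑ i, c i = d := by
      have := hF (mem_support_iff.1 hc)
      rw [← this, Finsupp.weight_apply, Finsupp.sum_fintype _ _ (by simp)]
      simp
    rw [← h5, zero_add, Finset.mul_sum]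
    refine Finset.sum_congr rfl fun i _ => ?_
    rw [hw, smul_eq_mul, smul_eq_mul, mul_one, mul_comm]
  rw [h4] at h3
  exact h3

theorem eval_scale {n d : ℕ} {F : MvPolynomial (Fin (n + 1)) ℂ} (hF : F.IsHomogeneous d) (c : ℂ)
    (x : Fin (n + 1) → ℂ) : eval (fun i => c * x i) F = c ^ d * eval x F := by
  rw [eval_eq', eval_eq', Finset.mul_sum]
  refine Finset.sum_congr rfl fun b hb => ?_
  have h1 : ∑ i, b i = d := by
    have := hF (mem_support_iff.1 hb)
    rw [← this, Finsupp.weight_apply, Finsupp.sum_fintype _ _ (by simp)]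
    simp
  have h2 : ∏ i, (c * x i) ^ b i = c ^ d * ∏ i, x i ^ b i := by
    rw [← h1, ← Finset.prod_pow_eq_pow_sum, ← Finset.prod_mul_distrib]
    exact Finset.prod_congr rfl fun i _ => mul_pow _ _ _
  rw [h2]
  ring

/-- the equations of the cover at the points of a curve -/
theorem rel {n r : ℕ} {X : ZCov n r} {m : ℕ} (he : ∀ j, X.e j ∣ m) {L : Type} [Field L]
    [Algebra ℂ L] {t : Fin (n + 1) → L} {w : Fin r → L} (hZ : ZField X m L t w)
    {u : Fin (n + 1) → ℂ} {v : Fin r → ℂ} (hp : Pt X.toCov m t w u v) (j : Fin r) :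
    v j ^ X.e j = eval (fun i => u i ^ m) (X.F j) := by
  set B : Poly n r := (MvPolynomial.X (Sum.inr j)) ^ X.e j -
    aeval (fun i => (MvPolynomial.X (Sum.inl i) : Poly n r) ^ m) (X.F j) with hB
  have hwt : X.e j • X.toCov.wt m j = m * X.d j := by
    unfold Cov.wt
    rw [smul_eq_mul]
    exact Nat.mul_div_cancel' (dvd_mul_of_dvd_left (he j) _)
  have h1 : WH X.toCov m B (m * X.d j) := by
    unfold WH
    refine IsWeightedHomogeneous.sub ?_ ?_
    · have := (isWeightedHomogeneous_X ℂ (Sum.elim (fun _ => 1) (X.toCov.wt m) :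
        Fin (n + 1) ⊕ Fin r → ℕ) (Sum.inr j)).pow (X.e j)
      rw [Sum.elim_inr, hwt] at this
      exact this
    · exact wh_F (X.hF j) _ (fun i => rfl) m
  have h2 : aeval (Sum.elim t w) B = 0 := by
    rw [hB, map_sub, map_pow, aeval_X, Sum.elim_inr, comp_aeval_apply, hZ.eqn j, sub_eq_zero]
    congr 2
    funext i
    rw [map_pow, aeval_X, Sum.elim_inl]
  have h3 := hp.2.1 B _ h1 h2
  rw [hB, map_sub, map_pow, eval_X, Sum.elim_inr, sub_eq_zero] at h3
  rw [h3]
  have h4 := comp_aeval_apply (fun i => (MvPolynomial.X (Sum.inl i) : Poly n r) ^ m)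
    (MvPolynomial.aeval (Sum.elim u v) : Poly n r →ₐ[ℂ] ℂ) (X.F j)
  have h5 : (fun i => aeval (Sum.elim u v) ((MvPolynomial.X (Sum.inl i) : Poly n r) ^ m)) =
      fun i => u i ^ m := by
    funext i
    rw [map_pow, aeval_X, Sum.elim_inl]
  rw [h5] at h4
  exact h4

theorem root_const {A Q : Polynomial ℂ} {e : ℕ} (he : 0 < e) {a : ℂ} (hQ : Q ≠ 0)
    (h : ∀ z : ℂ, z ≠ 0 → A.eval z ^ e = a * Q.eval z ^ e) :
    ∃ κ : ℂ, A = Polynomial.C κ * Q := by
  classical
  set R := (Polynomial.X ^ e - Polynomial.C a : Polynomial ℂ).roots.toFinset with hR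
  have hne : (Polynomial.X ^ e - Polynomial.C a : Polynomial ℂ) ≠ 0 :=
    Polynomial.X_pow_sub_C_ne_zero he a
  have h1 : (∏ κ ∈ R, (A - Polynomial.C κ * Q)) * Q = 0 := by
    refine poly_zero fun z hz => ?_
    rw [Polynomial.eval_mul, Polynomial.eval_prod]
    by_cases hq : Q.eval z = 0
    · rw [hq, mul_zero]
    · have h2 : A.eval z / Q.eval z ∈ R := by
        rw [hR, Multiset.mem_toFinset, Polynomial.mem_roots hne, Polynomial.IsRoot.def,
          Polynomial.eval_sub, Polynomial.eval_pow, Polynomial.eval_X, Polynomial.eval_C, div_pow,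
          h z hz, mul_div_assoc, div_self (pow_ne_zero e hq), mul_one, sub_self]
      rw [Finset.prod_eq_zero h2, zero_mul]
      rw [Polynomial.eval_sub, Polynomial.eval_mul, Polynomial.eval_C]
      field_simp
      ring
  have h2 := (mul_eq_zero.1 h1).resolve_right hQ
  obtain ⟨κ, -, hκ⟩ := Finset.prod_eq_zero_iff.1 h2
  exact ⟨κ, sub_eq_zero.1 hκ⟩

theorem t_fgm : St_fgm := by
  intro n r X m hm he L _ _ t w hZ hB
  obtain ⟨B, D, hWH, hBne, b, hb⟩ := hB
  refine ⟨B, D, hWH, hBne, fun p s hps z0 hz0 => ?_⟩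
  by_contra hne
  have hBp : aeval (Sum.elim p s) B ≠ 0 := by
    intro h0
    apply hne
    rw [← eval_poly, h0, Polynomial.eval_zero]
  by_cases hprop : ∀ z1 z2 : ℂ, z1 ≠ 0 → z2 ≠ 0 → ∀ i l,
      (p i).eval z1 * (p l).eval z2 = (p i).eval z2 * (p l).eval z1
  · obtain ⟨z, z', hz, hz', hS⟩ := hps.nonconst
    apply hS
    obtain ⟨l, hl⟩ := exists_eval_ne hps hz
    have hl' : ∀ y : ℂ, y ≠ 0 → (p l).eval y ≠ 0 := by
      intro y hy h0
      obtain ⟨i, hi⟩ := exists_eval_ne hps hy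
      have h1 := hprop y z hy hz i l
      rw [h0, mul_zero] at h1
      exact (mul_ne_zero hi hl) h1
    have hpl : p l ≠ 0 := by
      intro h0
      rw [h0] at hl
      simp at hl
    have hc : ∀ i, ∀ y : ℂ, y ≠ 0 → (p i).eval y = (p i).eval z / (p l).eval z * (p l).eval y := by
      intro i y hy
      have h1 := hprop y z hy hz i l
      field_simp
      linear_combination h1
    have hs : ∀ j, ∃ κ : ℂ, s j = Polynomial.C κ * p l ^ X.toCov.wt m j := by
      intro j
      refine root_const (X.he j) (pow_ne_zero _ hpl)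
        (a := eval (fun i => ((p i).eval z / (p l).eval z) ^ m) (X.F j)) fun y hy => ?_
      rw [rel he hZ (hps.mem y hy) j]
      have h1 : (fun i => (p i).eval y ^ m) =
          fun i => (p l).eval y ^ m * ((p i).eval z / (p l).eval z) ^ m := by
        funext i
        rw [hc i y hy, mul_pow, mul_comm]
      have h3 : eval (fun i => (p i).eval y ^ m) (X.F j) =
          ((p l).eval y ^ m) ^ X.d j * eval (fun i => ((p i).eval z / (p l).eval z) ^ m) (X.F j) := by
        rw [h1, eval_scale (X.hF j)]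
      have hwt : X.toCov.wt m j * X.e j = m * X.d j := by
        unfold Cov.wt
        exact Nat.div_mul_cancel (dvd_mul_of_dvd_left (he j) _)
      rw [h3, Polynomial.eval_pow, ← pow_mul, ← pow_mul, hwt]
      ring
    refine ⟨(p l).eval z' / (p l).eval z, div_ne_zero (hl' z' hz') hl, fun i => ?_, fun j => ?_⟩
    · change (p i).eval z' = (p l).eval z' / (p l).eval z * (p i).eval z
      rw [hc i z' hz']
      field_simp
    · obtain ⟨κ, hκ⟩ := hs j
      change (s j).eval z' = ((p l).eval z' / (p l).eval z) ^ X.toCov.wt m j * (s j).eval z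
      rw [hκ, Polynomial.eval_mul, Polynomial.eval_mul, Polynomial.eval_pow, Polynomial.eval_pow,
        Polynomial.eval_C, Polynomial.eval_C, div_pow]
      field_simp
  · push Not at hprop
    obtain ⟨z1, z2, hz1, hz2, i, l, hil⟩ := hprop
    have hk : 0 < b.toNat + 1 := Nat.succ_pos _
    have h1 := hb _ _ (mapTo hps hk) (by rw [aeval_ev]; exact ev_ne hk hBp)
    have h2 := pht_big hps hk hz1 hil
    push_cast at h2
    omega

end Pool.Agent.Y288.FG
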